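import Pool.Agent.W186.EH.Spec

set_option autoImplicit false

namespace Pool.Agent.W347.EH

open Finset Pool.Agent.W186.EH
open Pool.Agent.Helper153.Vdc (ee dd Cond vdc_ineq' cond_diff sum_inv_le triv_bound kusmin_landau)

theorem sq_lin {S K V : ℝ} (hS : 0 ≤ S) (hK : 1 ≤ K) (hV : 0 ≤ V) (h : S ^ 2 ≤ K * V ^ 2) :
    S ≤ K * V := by
  have h1 : S ^ 2 ≤ (K * V) ^ 2 := by
    rw [mul_pow]
    refine h.trans (mul_le_mul_of_nonneg_right ?_ (sq_nonneg _))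
    nlinarith
  exact (pow_le_pow_iff_left₀ hS (by positivity) two_ne_zero).1 h1

theorem sum_rpow (b : ℝ) (hb0 : 0 ≤ b) (hb : b ≤ 1 / 2) (n : ℕ) :
    ∑ h ∈ Ico 1 (n + 1), (h : ℝ) ^ (-b) ≤ 2 * (n : ℝ) ^ (1 - b) := by
  induction n with
  | zero =>
    simp only [Nat.zero_add, Finset.Ico_self, Finset.sum_empty]
    positivity
  | succ n ih =>
    rw [Finset.sum_Ico_succ_top (by omega)]
    have hn : (0 : ℝ) < (n : ℝ) + 1 := by positivity
    have hs : -1 ≤ -(1 / ((n : ℝ) + 1)) := by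
      have : 1 / ((n : ℝ) + 1) ≤ 1 := by
        rw [div_le_one hn]; linarith [(Nat.cast_nonneg n : (0 : ℝ) ≤ n)]
      linarith
    have hbn := rpow_one_add_le_one_add_mul_self hs (p := 1 - b) (by linarith) (by linarith)
    have h1 : (n : ℝ) = ((n : ℝ) + 1) * (1 + -(1 / ((n : ℝ) + 1))) := by field_simp; ring
    have h2 : (n : ℝ) ^ (1 - b) = ((n : ℝ) + 1) ^ (1 - b) *
        (1 + -(1 / ((n : ℝ) + 1))) ^ (1 - b) := by
      conv_lhs => rw [h1]
      rw [Real.mul_rpow hn.le (by linarith)]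
    have h3 : ((n : ℝ) + 1) ^ (1 - b) = ((n : ℝ) + 1) * ((n : ℝ) + 1) ^ (-b) := by
      rw [show (1 - b) = 1 + -b by ring, Real.rpow_add hn, Real.rpow_one]
    have h4 : (n : ℝ) ^ (1 - b) ≤ ((n : ℝ) + 1) ^ (1 - b) * (1 + (1 - b) * -(1 / ((n : ℝ) + 1))) := by
      rw [h2]
      exact mul_le_mul_of_nonneg_left hbn (by positivity)
    have h5 : ((n : ℝ) + 1) ^ (1 - b) * (1 + (1 - b) * -(1 / ((n : ℝ) + 1))) =
        ((n : ℝ) + 1) ^ (1 - b) - (1 - b) * ((n : ℝ) + 1) ^ (-b) := by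
      rw [h3]; field_simp; ring
    rw [h5] at h4
    have h6 : 0 < ((n : ℝ) + 1) ^ (-b) := by positivity
    have h7 : (((n + 1 : ℕ) : ℝ)) = (n : ℝ) + 1 := by push_cast; ring
    rw [h7]
    nlinarith

theorem sum_rpow' (b : ℝ) (hb0 : 0 ≤ b) (hb : b ≤ 1 / 2) (H : ℕ) (hH : 1 ≤ H) :
    ∑ h ∈ Ico 1 H, (h : ℝ) ^ (-b) ≤ 2 * (H : ℝ) ^ (1 - b) := by
  obtain ⟨n, rfl⟩ : ∃ n, H = n + 1 := ⟨H - 1, by omega⟩
  refine (sum_rpow b hb0 hb n).trans ?_
  have : (n : ℝ) ^ (1 - b) ≤ ((n + 1 : ℕ) : ℝ) ^ (1 - b) :=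
    Real.rpow_le_rpow (by positivity) (by push_cast; linarith) (by linarith)
  linarith

theorem base_sq (A : ℝ) (hA : 1 ≤ A) (N M : ℕ) (g : ℕ → ℝ) (lam : ℝ) (hN : 1 ≤ N) (hMN : M ≤ N)
    (hlam : 0 < lam) (hc : Cond 2 g M lam A) (hAl : 2 * A * lam ≤ 1) :
    ‖∑ n ∈ range M, ee (g n)‖ ^ 2 ≤ 2 * N + 8 * ((1 + Real.log N) / lam) +
      8 * A * (lam * (N : ℝ) ^ 2) + 32 * A * (N * (1 + Real.log N)) := by
  have hN1 : (1 : ℝ) ≤ N := by exact_mod_cast hN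
  have hN0 : (0 : ℝ) < N := by linarith
  have hAl0 : 0 < 2 * A * lam := by positivity
  set q := 1 / (2 * A * lam) with hq
  have hq1 : 1 ≤ q := by rw [hq, le_div_iff₀ hAl0]; linarith
  set H := min N ⌊q⌋₊ with hH
  have hH1 : 1 ≤ H := le_min hN (Nat.floor_pos.2 hq1)
  have hHN : H ≤ N := min_le_left _ _
  have hH0 : (0 : ℝ) < H := by exact_mod_cast hH1
  have hHq : (H : ℝ) ≤ q := by
    have h1 : (H : ℝ) ≤ (⌊q⌋₊ : ℝ) := by exact_mod_cast min_le_right _ _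
    exact h1.trans (Nat.floor_le (by linarith))
  have hHinv : 1 / (H : ℝ) ≤ 1 / N + 4 * A * lam := by
    rcases le_total N ⌊q⌋₊ with h | h
    · have : H = N := min_eq_left h
      rw [this]
      have : 0 < 4 * A * lam := by positivity
      linarith
    · have hHf : H = ⌊q⌋₊ := min_eq_right h
      have h1 : q < (⌊q⌋₊ : ℝ) + 1 := Nat.lt_floor_add_one q
      have h2 : (1 : ℝ) ≤ ⌊q⌋₊ := by exact_mod_cast Nat.floor_pos.2 hq1
      have h3 : q ≤ 2 * H := by rw [hHf]; linarith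
      have h4 : 1 / (H : ℝ) ≤ 2 / q := by
        rw [div_le_div_iff₀ hH0 (by linarith)]; linarith
      have h5 : 2 / q = 4 * A * lam := by rw [hq]; field_simp; ring
      have h6 : 0 < 1 / (N : ℝ) := by positivity
      linarith
  have hSh : ∀ h ∈ Ico 1 H, ‖∑ n ∈ range (M - h), ee ((fun n => g (n + h) - g n) n)‖ ≤
      2 / lam * (1 / (h : ℝ)) := by
    intro h hh
    rw [mem_Ico] at hh
    have hch := cond_diff (k := 1) hc hh.1
    have hh0 : (0 : ℝ) < h := by exact_mod_cast hh.1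
    have hhH : (h : ℝ) ≤ H := by exact_mod_cast hh.2.le
    have hle : A * (h * lam) ≤ 1 / 2 := by
      have h1 : (h : ℝ) * (2 * A * lam) ≤ 1 := by
        have h2 : (h : ℝ) ≤ q := hhH.trans hHq
        rw [hq, le_div_iff₀ hAl0] at h2
        exact h2
      linarith
    have hθ : (h : ℝ) * lam ≤ 1 / 2 := by
      have : 0 < (h : ℝ) * lam := by positivity
      nlinarith
    have hkl := kusmin_landau (M - h) (fun n => g (n + h) - g n) (h * lam) (by positivity) hθ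
      (fun n hn => by
        have := hch.1 n hn
        simp only [dd] at this
        exact ⟨this.1, this.2.trans hle⟩)
      (fun n hn => by
        have := hch.2 n hn
        simp only [dd] at this
        linarith)
    refine hkl.trans (le_of_eq ?_)
    field_simp
  have hsum : ∑ h ∈ Ico 1 H, ‖∑ n ∈ range (M - h), ee ((fun n => g (n + h) - g n) n)‖ ≤
      2 / lam * (1 + Real.log N) := by
    refine (Finset.sum_le_sum hSh).trans ?_
    rw [← Finset.mul_sum]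
    exact mul_le_mul_of_nonneg_left (sum_inv_le hHN) (by positivity)
  set L := 1 + Real.log N with hL
  have hL0 : 0 ≤ L := by
    rw [hL]; have := Real.log_nonneg hN1; linarith
  have hv := vdc_ineq' M N H hMN hH1 hHN g
  set T := ∑ h ∈ Ico 1 H, ‖∑ n ∈ range (M - h), ee ((fun n => g (n + h) - g n) n)‖ with hT
  have hT0 : 0 ≤ T := Finset.sum_nonneg fun _ _ => norm_nonneg _
  have h1 : 2 * (N : ℝ) / H * ((N : ℝ) + 2 * T) ≤
      (2 * N * (1 / N + 4 * A * lam)) * (N + 2 * (2 / lam * L)) := by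
    have h2 : 2 * (N : ℝ) / H = 2 * N * (1 / H) := by ring
    rw [h2]
    apply mul_le_mul
    · exact mul_le_mul_of_nonneg_left hHinv (by positivity)
    · linarith
    · positivity
    · positivity
  have h3 : (2 * N * (1 / N + 4 * A * lam)) * (N + 2 * (2 / lam * L)) =
      2 * N + 8 * (L / lam) + 8 * A * (lam * (N : ℝ) ^ 2) + 32 * A * (N * L) := by
    field_simp
    ring
  rw [h3] at h1
  exact hv.trans h1

theorem base (A : ℝ) (hA : 1 ≤ A) (ε : ℝ) (hε : 0 < ε) : ∃ C : ℝ, 1 ≤ C ∧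
    ∀ (N M : ℕ) (g : ℕ → ℝ) (lam : ℝ), 1 ≤ N → M ≤ N → 0 < lam → Cond 2 g M lam A →
      ‖∑ n ∈ Finset.range M, ee (g n)‖ ≤ C * (N : ℝ) ^ ε * VB 2 N lam := by
  set B : ℝ := 1 + 1 / ε with hB
  have hB1 : 1 ≤ B := by
    rw [hB]; have : 0 < 1 / ε := by positivity
    linarith
  refine ⟨(10 + 40 * A) * B, by nlinarith, ?_⟩
  intro N M g lam hN hMN hlam hc
  have hN1 : (1 : ℝ) ≤ N := by exact_mod_cast hN
  have hN0 : (0 : ℝ) < N := by linarith
  have hVB : VB 2 N lam = N * lam ^ ((1 : ℝ) / 2) + lam ^ (-((1 : ℝ) / 2)) := by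
    unfold VB
    norm_num
  have hx0 : 0 < lam ^ ((1 : ℝ) / 2) := by positivity
  have hy0 : 0 < lam ^ (-((1 : ℝ) / 2)) := by positivity
  have hNe : 1 ≤ (N : ℝ) ^ ε := Real.one_le_rpow hN1 hε.le
  have hCN : 1 ≤ (10 + 40 * A) * B * (N : ℝ) ^ ε :=
    one_le_mul_of_one_le_of_one_le
      (one_le_mul_of_one_le_of_one_le (by linarith) hB1) hNe
  rw [hVB]
  by_cases hAl : 2 * A * lam ≤ 1
  · have h1 := base_sq A hA N M g lam hN hMN hlam hc hAl
    have hlog : 1 + Real.log N ≤ B * (N : ℝ) ^ ε := by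
      have h1 := Real.log_le_rpow_div hN0.le hε
      have h3 : (N : ℝ) ^ ε / ε = 1 / ε * (N : ℝ) ^ ε := by field_simp
      rw [h3] at h1
      rw [hB, add_mul, one_mul]
      linarith
    set L := 1 + Real.log N with hL
    have hL1 : 1 ≤ L := by
      rw [hL]; have := Real.log_nonneg hN1; linarith
    set x := (N : ℝ) * lam ^ ((1 : ℝ) / 2) with hx
    set y := lam ^ (-((1 : ℝ) / 2)) with hy
    have hxx : 0 < x := by positivity
    have e1 : x * y = N := by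
      rw [hx, hy, mul_assoc, ← Real.rpow_add hlam]; simp
    have e2 : x ^ 2 = lam * (N : ℝ) ^ 2 := by
      rw [hx, mul_pow, ← Real.rpow_natCast (lam ^ ((1 : ℝ) / 2)), ← Real.rpow_mul hlam.le]
      norm_num; ring
    have e3 : y ^ 2 = 1 / lam := by
      rw [hy, ← Real.rpow_natCast (lam ^ (-((1 : ℝ) / 2))), ← Real.rpow_mul hlam.le]
      norm_num [Real.rpow_neg_one]
    have h2 : ‖∑ n ∈ range M, ee (g n)‖ ^ 2 ≤ ((10 + 40 * A) * B * (N : ℝ) ^ ε) * (x + y) ^ 2 := by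
      refine h1.trans ?_
      have e4 : 2 * (N : ℝ) + 8 * (L / lam) + 8 * A * (lam * (N : ℝ) ^ 2) + 32 * A * (N * L) =
          2 * (x * y) + 8 * (L * y ^ 2) + 8 * A * x ^ 2 + 32 * A * (L * (x * y)) := by
        rw [e1, e2, e3]; ring
      rw [e4]
      have q0 : x * y ≤ (x + y) ^ 2 := by nlinarith [sq_nonneg x, sq_nonneg y, mul_pos hxx hy0]
      have q1 : x ^ 2 ≤ (x + y) ^ 2 := by nlinarith [sq_nonneg x, sq_nonneg y, mul_pos hxx hy0]
      have q2 : y ^ 2 ≤ (x + y) ^ 2 := by nlinarith [sq_nonneg x, sq_nonneg y, mul_pos hxx hy0]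
      have q3 : (x + y) ^ 2 ≤ L * (x + y) ^ 2 := by nlinarith [sq_nonneg (x + y)]
      have q4 : L * (x * y) ≤ L * (x + y) ^ 2 := mul_le_mul_of_nonneg_left q0 (by linarith)
      have q5 : L * y ^ 2 ≤ L * (x + y) ^ 2 := mul_le_mul_of_nonneg_left q2 (by linarith)
      have q6 : 8 * A * x ^ 2 ≤ 8 * A * (L * (x + y) ^ 2) :=
        mul_le_mul_of_nonneg_left (q1.trans q3) (by linarith)
      have q7 : 32 * A * (L * (x * y)) ≤ 32 * A * (L * (x + y) ^ 2) :=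
        mul_le_mul_of_nonneg_left q4 (by linarith)
      have q8 : (10 + 40 * A) * L * (x + y) ^ 2 ≤ (10 + 40 * A) * (B * (N : ℝ) ^ ε) * (x + y) ^ 2 :=
        mul_le_mul_of_nonneg_right (mul_le_mul_of_nonneg_left hlog (by linarith)) (sq_nonneg _)
      have q9 : (10 + 40 * A) * L * (x + y) ^ 2 = 10 * (L * (x + y) ^ 2) +
          40 * A * (L * (x + y) ^ 2) := by ring
      have q10 : (10 + 40 * A) * (B * (N : ℝ) ^ ε) * (x + y) ^ 2 =
          (10 + 40 * A) * B * (N : ℝ) ^ ε * (x + y) ^ 2 := by ring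
      rw [← q10]
      refine le_trans ?_ q8
      rw [q9]
      linarith
    exact sq_lin (norm_nonneg _) hCN (by positivity) h2
  · push Not at hAl
    have h1 : (M : ℝ) ≤ N := by exact_mod_cast hMN
    have h2 := triv_bound M g
    have h3 : 1 ≤ (2 * A * lam) ^ ((1 : ℝ) / 2) := Real.one_le_rpow hAl.le (by norm_num)
    have h4 : (2 * A * lam) ^ ((1 : ℝ) / 2) = (2 * A) ^ ((1 : ℝ) / 2) * lam ^ ((1 : ℝ) / 2) :=
      Real.mul_rpow (by linarith) hlam.le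
    have h5 : (2 * A) ^ ((1 : ℝ) / 2) ≤ 2 * A := by
      have := Real.rpow_le_rpow_of_exponent_le (show 1 ≤ 2 * A by linarith)
        (show (1 : ℝ) / 2 ≤ 1 by norm_num)
      rwa [Real.rpow_one] at this
    have h6 : 1 ≤ 2 * A * lam ^ ((1 : ℝ) / 2) := by
      rw [h4] at h3
      exact h3.trans (mul_le_mul_of_nonneg_right h5 hx0.le)
    have h7 : (N : ℝ) ≤ 2 * A * (N * lam ^ ((1 : ℝ) / 2)) := by nlinarith
    have h8 : 2 * A ≤ (10 + 40 * A) * B * (N : ℝ) ^ ε := by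
      have : 2 * A ≤ (10 + 40 * A) := by linarith
      have h9 : (10 + 40 * A) ≤ (10 + 40 * A) * (B * (N : ℝ) ^ ε) := by
        have : 1 ≤ B * (N : ℝ) ^ ε := by nlinarith
        nlinarith
      linarith
    have h9 : 0 ≤ (N : ℝ) * lam ^ ((1 : ℝ) / 2) := by positivity
    calc ‖∑ n ∈ range M, ee (g n)‖ ≤ N := h2.trans h1
      _ ≤ 2 * A * (N * lam ^ ((1 : ℝ) / 2)) := h7
      _ ≤ (10 + 40 * A) * B * (N : ℝ) ^ ε * (N * lam ^ ((1 : ℝ) / 2)) :=
          mul_le_mul_of_nonneg_right h8 h9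
      _ ≤ (10 + 40 * A) * B * (N : ℝ) ^ ε * (N * lam ^ ((1 : ℝ) / 2) + lam ^ (-((1 : ℝ) / 2))) :=
          mul_le_mul_of_nonneg_left (by linarith) (by linarith)

theorem step (k : ℕ) (hk : 2 ≤ k) (A : ℝ) (ε : ℝ) (hε : 0 < ε) (C1 : ℝ) (hC1 : 1 ≤ C1)
    (hIH : ∀ (N M : ℕ) (g : ℕ → ℝ) (lam : ℝ), 1 ≤ N → M ≤ N → 0 < lam → Cond k g M lam A →
      ‖∑ n ∈ Finset.range M, ee (g n)‖ ≤ C1 * (N : ℝ) ^ ε * VB k N lam)
    (N M : ℕ) (g : ℕ → ℝ) (lam : ℝ) (hN : 1 ≤ N) (hMN : M ≤ N) (hlam : 0 < lam)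
    (hc : Cond (k + 1) g M lam A) :
    ‖∑ n ∈ Finset.range M, ee (g n)‖ ≤ 24 * C1 * (N : ℝ) ^ ε * VB (k + 1) N lam := by
  set P : ℝ := (2 : ℝ) ^ k with hP
  have hP4 : 4 ≤ P := by
    rw [hP]
    calc (4 : ℝ) = 2 ^ 2 := by norm_num
      _ ≤ 2 ^ k := pow_le_pow_right₀ (by norm_num) hk
  have hP0 : 0 < P := by linarith
  have hP1 : 0 < P - 1 := by linarith
  have hP2 : 0 < P - 2 := by linarith
  set b := 1 / (P - 2) with hb
  set c := 1 / (P - 1) with hcdef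
  have hb0 : 0 < b := by positivity
  have hc0 : 0 < c := by positivity
  have hb2 : b ≤ 1 / 2 := by
    rw [hb, div_le_div_iff₀ hP2 (by norm_num)]; linarith
  have hbc : b * (1 - c) = c := by
    rw [hb, hcdef]; field_simp; ring
  have hN1 : (1 : ℝ) ≤ N := by exact_mod_cast hN
  have hN0 : (0 : ℝ) < N := by linarith
  have hNe : 1 ≤ (N : ℝ) ^ ε := Real.one_le_rpow hN1 hε.le
  have hVB : VB (k + 1) N lam = N * lam ^ (c / 2) + (N : ℝ) ^ (1 - 2 / P) * lam ^ (-(c / 2)) := by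
    unfold VB
    have e1 : 1 / ((2 : ℝ) ^ (k + 1) - 2) = c / 2 := by
      rw [pow_succ, ← hP, hcdef]
      have h1 : P * 2 - 2 = (P - 1) * 2 := by ring
      rw [h1, div_div]
    have e2 : 4 / (2 : ℝ) ^ (k + 1) = 2 / P := by
      rw [pow_succ, ← hP]; field_simp; norm_num
    rw [e1, e2]
  have hVBk : ∀ l : ℝ, VB k N l = N * l ^ b + (N : ℝ) ^ (1 - 4 / P) * l ^ (-b) := by
    intro l
    unfold VB
    rw [← hP, ← hb]
  set x := (N : ℝ) * lam ^ (c / 2) with hx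
  set y := (N : ℝ) ^ (1 - 2 / P) * lam ^ (-(c / 2)) with hy
  have hx0 : 0 < x := by positivity
  have hy0 : 0 < y := by positivity
  have hCN : 1 ≤ 24 * C1 * (N : ℝ) ^ ε :=
    one_le_mul_of_one_le_of_one_le (by linarith) hNe
  have hS := (triv_bound M g).trans (by exact_mod_cast hMN : (M : ℝ) ≤ N)
  rw [hVB]
  rcases le_or_gt 1 lam with hl1 | hl1
  · have h1 : 1 ≤ lam ^ (c / 2) := Real.one_le_rpow hl1 (by positivity)
    have h2 : (N : ℝ) ≤ x := by rw [hx]; nlinarith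
    have h3 : x + y ≤ 24 * C1 * (N : ℝ) ^ ε * (x + y) :=
      le_mul_of_one_le_left (by linarith) hCN
    linarith
  set q := lam ^ (-c) with hq
  have hq1 : 1 ≤ q := Real.one_le_rpow_of_pos_of_le_one_of_nonpos hlam hl1.le (by linarith)
  rcases lt_or_ge (N : ℝ) q with hqN | hqN
  · have h1 : (N : ℝ) ^ ((1 : ℝ) / 2) ≤ lam ^ (-(c / 2)) := by
      have h2 := Real.rpow_le_rpow hN0.le hqN.le (show (0 : ℝ) ≤ 1 / 2 by norm_num)
      rw [hq, ← Real.rpow_mul hlam.le] at h2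
      convert h2 using 2
      ring
    have h2 : (N : ℝ) ≤ y := by
      have h3 : (N : ℝ) ^ (1 - 2 / P) * (N : ℝ) ^ ((1 : ℝ) / 2) ≤ y := by
        rw [hy]
        exact mul_le_mul_of_nonneg_left h1 (by positivity)
      refine le_trans ?_ h3
      rw [← Real.rpow_add hN0]
      have h4 : 2 / P ≤ 1 / 2 := by
        rw [div_le_div_iff₀ hP0 (by norm_num)]; linarith
      have h5 := Real.rpow_le_rpow_of_exponent_le hN1 (show (1 : ℝ) ≤ 1 - 2 / P + 1 / 2 by linarith)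
      rwa [Real.rpow_one] at h5
    have h3 : x + y ≤ 24 * C1 * (N : ℝ) ^ ε * (x + y) :=
      le_mul_of_one_le_left (by linarith) hCN
    linarith
  have hq0 : 0 < q := by linarith
  set H := ⌊q⌋₊ with hH
  have hH1 : 1 ≤ H := Nat.floor_pos.2 hq1
  have hHq : (H : ℝ) ≤ q := Nat.floor_le (by linarith)
  have hHN : H ≤ N := by
    have : (H : ℝ) ≤ N := hHq.trans hqN
    exact_mod_cast this
  have hH1' : (1 : ℝ) ≤ H := by exact_mod_cast hH1
  have hH0 : (0 : ℝ) < H := by linarith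
  have hHq2 : q ≤ 2 * H := by
    have h1 : q < (H : ℝ) + 1 := Nat.lt_floor_add_one q
    linarith
  -- powers
  have hql : (q * lam) ^ b = lam ^ c := by
    have h1 : q * lam = lam ^ (1 - c) := by
      rw [hq, show (1 - c) = -c + 1 by ring, Real.rpow_add hlam, Real.rpow_one]
    rw [h1, ← Real.rpow_mul hlam.le]
    congr 1
    rw [mul_comm]; exact hbc
  have hql' : (q * lam) ^ (-b) = lam ^ (-c) := by
    rw [Real.rpow_neg (by positivity), hql, Real.rpow_neg hlam.le]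
  have hp1 : ((H : ℝ) * lam) ^ b ≤ lam ^ c := by
    rw [← hql]
    exact Real.rpow_le_rpow (by positivity) (mul_le_mul_of_nonneg_right hHq hlam.le) hb0.le
  have hp2 : ((H : ℝ) * lam) ^ (-b) ≤ 2 * lam ^ (-c) := by
    have h1 : ((H : ℝ) * lam) ^ (-b) ≤ (q * lam / 2) ^ (-b) :=
      Real.rpow_le_rpow_of_nonpos (by positivity) (by nlinarith) (by linarith)
    have h2 : (q * lam / 2) ^ (-b) = (q * lam) ^ (-b) * 2 ^ b := by
      rw [Real.div_rpow (by positivity) (by norm_num), Real.rpow_neg (by norm_num : (0 : ℝ) ≤ 2) b]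
      field_simp
    have h3 : (2 : ℝ) ^ b ≤ 2 := by
      have := Real.rpow_le_rpow_of_exponent_le (show (1 : ℝ) ≤ 2 by norm_num)
        (show b ≤ 1 by linarith)
      rwa [Real.rpow_one] at this
    rw [h2, hql'] at h1
    have h4 : 0 < lam ^ (-c) := by positivity
    nlinarith
  -- the sums S_h
  have hSh : ∀ h ∈ Ico 1 H, ‖∑ n ∈ range (M - h), ee ((fun n => g (n + h) - g n) n)‖ ≤
      C1 * (N : ℝ) ^ ε * (N * lam ^ c + (N : ℝ) ^ (1 - 4 / P) * lam ^ (-b) * (h : ℝ) ^ (-b)) := by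
    intro h hh
    rw [mem_Ico] at hh
    have hh1 : (1 : ℝ) ≤ h := by exact_mod_cast hh.1
    have hh0 : (0 : ℝ) < h := by linarith
    have hhH : (h : ℝ) ≤ H := by exact_mod_cast hh.2.le
    have h1 := hIH N (M - h) (fun n => g (n + h) - g n) (h * lam) hN (by omega) (by positivity)
      (cond_diff hc hh.1)
    rw [hVBk] at h1
    refine h1.trans (mul_le_mul_of_nonneg_left ?_ (by positivity))
    have h2 : ((h : ℝ) * lam) ^ b ≤ lam ^ c :=
      (Real.rpow_le_rpow (by positivity) (mul_le_mul_of_nonneg_right hhH hlam.le) hb0.le).trans hp1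
    have h3 : ((h : ℝ) * lam) ^ (-b) = (h : ℝ) ^ (-b) * lam ^ (-b) :=
      Real.mul_rpow hh0.le hlam.le
    rw [h3]
    have h4 : (N : ℝ) * ((h : ℝ) * lam) ^ b ≤ N * lam ^ c := mul_le_mul_of_nonneg_left h2 hN0.le
    have h5 : (N : ℝ) ^ (1 - 4 / P) * ((h : ℝ) ^ (-b) * lam ^ (-b)) =
        (N : ℝ) ^ (1 - 4 / P) * lam ^ (-b) * (h : ℝ) ^ (-b) := by ring
    rw [h5]
    linarith
  have hT : ∑ h ∈ Ico 1 H, ‖∑ n ∈ range (M - h), ee ((fun n => g (n + h) - g n) n)‖ ≤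
      C1 * (N : ℝ) ^ ε * (H * (N * lam ^ c + 4 * ((N : ℝ) ^ (1 - 4 / P) * lam ^ (-c)))) := by
    refine (Finset.sum_le_sum hSh).trans ?_
    have e0 : ∑ h ∈ Ico 1 H, C1 * (N : ℝ) ^ ε *
        (N * lam ^ c + (N : ℝ) ^ (1 - 4 / P) * lam ^ (-b) * (h : ℝ) ^ (-b)) =
        C1 * (N : ℝ) ^ ε * ((∑ _h ∈ Ico 1 H, (N : ℝ) * lam ^ c) +
          (N : ℝ) ^ (1 - 4 / P) * lam ^ (-b) * ∑ h ∈ Ico 1 H, (h : ℝ) ^ (-b)) := by
      rw [← Finset.mul_sum, Finset.sum_add_distrib, Finset.mul_sum (Ico 1 H) (fun h : ℕ => (h : ℝ) ^ (-b))]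
    rw [e0]
    refine mul_le_mul_of_nonneg_left ?_ (by positivity)
    have h1 : ∑ _h ∈ Ico 1 H, (N : ℝ) * lam ^ c ≤ H * (N * lam ^ c) := by
      rw [Finset.sum_const, Nat.card_Ico, nsmul_eq_mul]
      have : ((H - 1 : ℕ) : ℝ) ≤ (H : ℕ) := by exact_mod_cast Nat.sub_le _ _
      exact mul_le_mul_of_nonneg_right this (by positivity)
    have h2 := sum_rpow' b hb0.le hb2 H hH1
    have h3 : (H : ℝ) ^ (1 - b) = H * (H : ℝ) ^ (-b) := by
      rw [show (1 - b) = 1 + -b by ring, Real.rpow_add hH0, Real.rpow_one]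
    have h4 : (H : ℝ) ^ (-b) * lam ^ (-b) = ((H : ℝ) * lam) ^ (-b) :=
      (Real.mul_rpow hH0.le hlam.le).symm
    have h5 : (N : ℝ) ^ (1 - 4 / P) * lam ^ (-b) * ∑ h ∈ Ico 1 H, (h : ℝ) ^ (-b) ≤
        (N : ℝ) ^ (1 - 4 / P) * lam ^ (-b) * (2 * (H * (H : ℝ) ^ (-b))) := by
      rw [← h3]
      exact mul_le_mul_of_nonneg_left h2 (by positivity)
    have h6 : (N : ℝ) ^ (1 - 4 / P) * lam ^ (-b) * (2 * (H * (H : ℝ) ^ (-b))) =
        (N : ℝ) ^ (1 - 4 / P) * (2 * H) * ((H : ℝ) * lam) ^ (-b) := by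
      rw [← h4]; ring
    have h7 : (N : ℝ) ^ (1 - 4 / P) * (2 * H) * ((H : ℝ) * lam) ^ (-b) ≤
        (N : ℝ) ^ (1 - 4 / P) * (2 * H) * (2 * lam ^ (-c)) :=
      mul_le_mul_of_nonneg_left hp2 (by positivity)
    rw [h6] at h5
    have h8 := h5.trans h7
    have h9 : (N : ℝ) ^ (1 - 4 / P) * (2 * H) * (2 * lam ^ (-c)) =
        H * (4 * ((N : ℝ) ^ (1 - 4 / P) * lam ^ (-c))) := by ring
    rw [h9] at h8
    rw [mul_add]
    linarith
  have hv := vdc_ineq' M N H hMN hH1 hHN g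
  set T := ∑ h ∈ Ico 1 H, ‖∑ n ∈ range (M - h), ee ((fun n => g (n + h) - g n) n)‖ with hTdef
  have hHinv : 1 / (H : ℝ) ≤ 2 * lam ^ c := by
    have h4 : lam ^ c = 1 / q := by
      rw [hq, Real.rpow_neg hlam.le]; field_simp
    rw [h4, mul_one_div, div_le_div_iff₀ hH0 hq0]
    linarith
  have ex : x ^ 2 = (N : ℝ) ^ 2 * lam ^ c := by
    rw [hx, mul_pow, ← Real.rpow_natCast (lam ^ (c / 2)), ← Real.rpow_mul hlam.le]
    congr 2
    push_cast; ring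
  have ey : y ^ 2 = N * ((N : ℝ) ^ (1 - 4 / P) * lam ^ (-c)) := by
    rw [hy, mul_pow, ← Real.rpow_natCast (lam ^ (-(c / 2))), ← Real.rpow_mul hlam.le,
      ← Real.rpow_natCast ((N : ℝ) ^ (1 - 2 / P)), ← Real.rpow_mul hN0.le, ← mul_assoc]
    have e1 : (N : ℝ) ^ ((1 - 2 / P) * ((2 : ℕ) : ℝ)) = N * (N : ℝ) ^ (1 - 4 / P) := by
      rw [show (1 - 2 / P) * ((2 : ℕ) : ℝ) = 1 + (1 - 4 / P) by push_cast; ring,
        Real.rpow_add hN0, Real.rpow_one]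
    rw [e1]
    congr 2
    push_cast; ring
  have hmain : ‖∑ n ∈ range M, ee (g n)‖ ^ 2 ≤ 24 * C1 * (N : ℝ) ^ ε * (x + y) ^ 2 := by
    have h1 : 2 * (N : ℝ) / H * ((N : ℝ) + 2 * T) ≤ 2 * (N : ℝ) / H * ((N : ℝ) + 2 *
        (C1 * (N : ℝ) ^ ε * (H * (N * lam ^ c + 4 * ((N : ℝ) ^ (1 - 4 / P) * lam ^ (-c)))))) :=
      mul_le_mul_of_nonneg_left (by linarith) (by positivity)
    have h2 : 2 * (N : ℝ) / H * ((N : ℝ) + 2 *
        (C1 * (N : ℝ) ^ ε * (H * (N * lam ^ c + 4 * ((N : ℝ) ^ (1 - 4 / P) * lam ^ (-c)))))) =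
        2 * (N : ℝ) ^ 2 * (1 / H) + 4 * (C1 * (N : ℝ) ^ ε) * (x ^ 2 + 4 * y ^ 2) := by
      rw [ex, ey]
      field_simp
      ring
    rw [h2] at h1
    have h3 : 2 * (N : ℝ) ^ 2 * (1 / H) ≤ 4 * x ^ 2 := by
      rw [ex]
      calc 2 * (N : ℝ) ^ 2 * (1 / H) ≤ 2 * (N : ℝ) ^ 2 * (2 * lam ^ c) :=
            mul_le_mul_of_nonneg_left hHinv (by positivity)
        _ = 4 * ((N : ℝ) ^ 2 * lam ^ c) := by ring
    have hD1 : 1 ≤ C1 * (N : ℝ) ^ ε := one_le_mul_of_one_le_of_one_le hC1 hNe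
    set D := C1 * (N : ℝ) ^ ε with hD
    have h4 : 24 * C1 * (N : ℝ) ^ ε * (x + y) ^ 2 = 24 * D * (x + y) ^ 2 := by rw [hD]; ring
    rw [h4]
    have h5 : x ^ 2 + y ^ 2 ≤ (x + y) ^ 2 := by
      have h11 := mul_pos hx0 hy0
      have h12 : (x + y) ^ 2 = x ^ 2 + y ^ 2 + 2 * (x * y) := by ring
      linarith
    have h6 : D * (x ^ 2 + y ^ 2) ≤ D * (x + y) ^ 2 := mul_le_mul_of_nonneg_left h5 (by linarith)
    have h7 : x ^ 2 ≤ D * x ^ 2 := le_mul_of_one_le_left (sq_nonneg x) hD1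
    have hD0 : 0 ≤ D := by linarith
    have h8 : 0 ≤ D * x ^ 2 := mul_nonneg hD0 (sq_nonneg x)
    have h9 : 0 ≤ D * y ^ 2 := mul_nonneg hD0 (sq_nonneg y)
    have h10 := hv.trans h1
    have h13 : 4 * D * (x ^ 2 + 4 * y ^ 2) = 4 * (D * x ^ 2) + 16 * (D * y ^ 2) := by ring
    have h14 : D * (x ^ 2 + y ^ 2) = D * x ^ 2 + D * y ^ 2 := by ring
    have h15 : 24 * D * (x + y) ^ 2 = 24 * (D * (x + y) ^ 2) := by ring
    rw [h13] at h10
    rw [h14] at h6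
    rw [h15]
    linarith
  exact sq_lin (norm_nonneg _) hCN (by positivity) hmain

theorem kt : Pool.Agent.W186.EH.S_KT := by
  intro k hk
  induction k, hk using Nat.le_induction with
  | base => intro A hA ε hε; exact base A hA ε hε
  | succ k hk ih =>
    intro A hA ε hε
    obtain ⟨C1, hC1, hIH⟩ := ih A hA ε hε
    refine ⟨24 * C1, by linarith, ?_⟩
    intro N M g lam hN hMN hlam hc
    exact step k hk A ε hε C1 hC1 hIH N M g lam hN hMN hlam hc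

end Pool.Agent.W347.EH
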